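import Pool.Agent.MP_d5eec5_gt.H77.KBot

/-! Row NF: normal forms of tangles without endpoints, and minimal diagrams of `bot l`. -/

set_option autoImplicit false

namespace Pool.Agent.MP_d5eec5_gt.H77

open Pool.Agent.MP_d5eec5_gt.H48 Kind

theorem nf_split0 (l : List ℕ) {p : ℕ} (h : p ≤ l.length) :
    ∃ l₁ l₂, l = l₁ ++ l₂ ∧ l₁.length = p :=
  ⟨l.take p, l.drop p, (List.take_append_drop p l).symm, List.length_take_of_le h⟩

theorem nf_split2 (l : List ℕ) {p : ℕ} (h : p + 2 ≤ l.length) :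
    ∃ l₁ x y l₂, l = l₁ ++ x :: y :: l₂ ∧ l₁.length = p := by
  obtain ⟨l₁, l₂, rfl, rfl⟩ := nf_split0 l (p := p) (by omega)
  match l₂, h with
  | x :: y :: l₂, _ => exact ⟨l₁, x, y, l₂, rfl, rfl⟩
  | [], h => simp at h
  | [_], h => simp at h

theorem nf_dup : ∀ l : List ℕ, ¬ l.Nodup →
    ∃ l₁ a m l₂, l = l₁ ++ a :: (m ++ a :: l₂) ∧ m.Nodup ∧ a ∉ m
  | [], h => absurd List.nodup_nil h
  | b :: l, h => by
    by_cases hl : l.Nodup
    · have hb : b ∈ l := by
        by_contra hb
        exact h (List.nodup_cons.2 ⟨hb, hl⟩)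
      obtain ⟨m, l₂, rfl⟩ := List.append_of_mem hb
      rw [List.nodup_append] at hl
      exact ⟨[], b, m, l₂, rfl, hl.1, fun hm => hl.2.2 b hm b (by simp) rfl⟩
    · obtain ⟨l₁, a, m, l₂, rfl, h1, h2⟩ := nf_dup l hl
      exact ⟨b :: l₁, a, m, l₂, rfl, h1, h2⟩

theorem nf_pc {a : ℕ} (b : ℕ) {l₁ : List ℕ} (h : a ∉ l₁) (l₂ : List ℕ) :
    pc a b (l₁ ++ l₂) = pc a b l₂ := by
  induction l₁ with
  | nil => rfl
  | cons x l₁ ih =>
    rw [List.mem_cons, not_or] at h
    rw [List.cons_append, pc, ih h.2, if_neg (Ne.symm h.1), add_zero]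

theorem nf_nf (h1 : StmtN1) (h2 : StmtN2) (h3 : StmtN3) (hI : StmtInt) : StmtNF := by
  intro B
  induction B using List.reverseRecOn with
  | nil => exact fun _ _ => Or.inl ⟨[], dbl_nil, by rw [bot_nil]; exact FE.refl _ _, by simp [inter]⟩
  | append_singleton B g ih =>
    intro hE hO
    rw [ok_append] at hO
    rcases ih (fun x hx => hE x (List.mem_append_left _ hx)) hO.1 with
      ⟨l, hl, hF, hc⟩ | ⟨u, v, i, hF⟩
    · obtain ⟨p, k⟩ := g
      have hp : p + win k ≤ l.length := by
        have := hO.2.1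
        rwa [hF.cnt_eq, bot_cnt hl] at this
      have hF' := hF.right [(p, k)]
      have hg := hE (p, k) (by simp)
      rw [cross_append]
      cases k with
      | cup =>
        obtain ⟨l₁, l₂, rfl, rfl⟩ := nf_split0 l (p := p) hp
        obtain ⟨a, ha⟩ := Infinite.exists_notMem_finset (l₁ ++ l₂).toFinset
        rw [List.mem_toFinset] at ha
        refine Or.inl ⟨_, dbl_cup.2 ⟨hl, ha⟩, hF'.trans (h2 l₁ l₂ a hl ha), ?_⟩
        rw [hI.2.2.1 l₁ l₂ a ha]
        omega
      | cap =>
        obtain ⟨l₁, x, y, l₂, rfl, rfl⟩ := nf_split2 l (p := p) hp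
        by_cases hxy : x = y
        · subst hxy
          obtain ⟨a1, a2⟩ := dbl_cup.1 hl
          refine Or.inr ⟨bot (l₁ ++ l₂), [], l₁.length, hF'.trans ?_⟩
          simpa using ((h2 l₁ l₂ x a1 a2).symm.right [(l₁.length, cap)])
        · refine Or.inl ⟨_, hl.cap hxy, hF'.trans (h3 l₁ l₂ x y hl hxy), ?_⟩
          have := hI.2.2.2.1 l₁ l₂ x y hxy hl
          omega
      | cr b =>
        obtain ⟨l₁, x, y, l₂, rfl, rfl⟩ := nf_split2 l (p := p) hp
        refine Or.inl ⟨_, hl.swap, hF'.trans (FE.trans (FE.left _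
          (FE.of_fl (w' := [(l₁.length, cr true)]) ?_ rfl)) (h1 l₁ l₂ x y hl)), ?_⟩
        · rw [bot_cnt hl]
          exact ⟨hp, trivial⟩
        · have := hI.1 l₁ l₂ x y
          have e : cross [(l₁.length, cr b)] = 1 := by rw [cross_cons]; rfl
          omega
      | up e => simpa [IsEnd] using hg e
      | dn e => simpa [IsEnd] using hg e
    · exact Or.inr ⟨u, v ++ [g], i, by simpa using hF.right [g]⟩

theorem nf_min (h1 : StmtN1) (h2 : StmtN2) (hI : StmtInt) : StmtMin := by
  intro l hl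
  induction hn : inter l + l.length using Nat.strong_induction_on generalizing l with
  | _ n ih =>
    by_cases hd : l.Nodup
    · cases l with
      | nil => exact ⟨[], by rw [bot_nil]; exact FE.refl _ _, by simp [inter, cross]⟩
      | cons a l => exact absurd hl.mem_tail (List.nodup_cons.1 hd).1
    · obtain ⟨l₁, a, m, l₂, rfl, hm, ha⟩ := nf_dup l hd
      cases m with
      | nil =>
        rw [List.nil_append] at hl hn ⊢
        obtain ⟨a1, a2⟩ := dbl_cup.1 hl
        have e := hI.2.2.1 l₁ l₂ a a2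
        obtain ⟨w, hw, hc⟩ := ih _ (by rw [← hn, e]; simp) (l₁ ++ l₂) a1 rfl
        refine ⟨w ++ [(l₁.length, cup)], (h2 l₁ l₂ a a1 a2).symm.trans (hw.right _), ?_⟩
        rw [cross_append, e, ← hc]
        rfl
      | cons x m =>
        rw [List.cons_append] at hl hn ⊢
        rw [List.mem_cons, not_or] at ha
        have hx := (List.nodup_cons.1 hm).1
        have hc := hl a (by simp)
        simp only [List.count_append, List.count_cons_self] at hc
        rw [List.count_cons_of_ne (Ne.symm ha.1), List.count_append, List.count_cons_self] at hc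
        have n1 : a ∉ l₁ := List.count_eq_zero.1 (by omega)
        have n2 : a ∉ l₂ := List.count_eq_zero.1 (by omega)
        have hodd : Odd (pc a x (l₁ ++ a :: x :: (m ++ a :: l₂))) := by
          have z : pc a x l₂ = 0 := by simpa [pc] using nf_pc x n2 []
          rw [nf_pc x n1, pc, pc, nf_pc x ha.2, pc, z, if_pos rfl, if_pos rfl,
            if_neg (Ne.symm ha.1), List.count_cons_self, List.count_append,
            List.count_cons_of_ne ha.1, List.count_eq_zero.2 hx]
          exact ⟨l₂.count x, by omega⟩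
        have e := hI.2.1 l₁ _ a x ha.1 hl hodd
        obtain ⟨w, hw, hcw⟩ := ih _ (by rw [← hn, ← e]; simp) _ hl.swap rfl
        refine ⟨w ++ [(l₁.length, cr true)], (h1 l₁ _ x a hl.swap).symm.trans (hw.right _), ?_⟩
        have e1 : cross [(l₁.length, cr true)] = 1 := rfl
        rw [cross_append, e1, ← e, ← hcw]
        ring

theorem nf_of : StmtN1 → StmtN2 → StmtN3 → StmtInt → StmtNF ∧ StmtMin :=
  fun h1 h2 h3 hI => ⟨nf_nf h1 h2 h3 hI, nf_min h1 h2 hI⟩

end Pool.Agent.MP_d5eec5_gt.H77
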